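import Pool.Agent.Helper45.BT.Samples
import Pool.Agent.Helper27.BT.Cutp
import Pool.Agent.Helper97.BT.Beta

/-!
# Project BTN, NF5: every rare list has a good cut
-/

set_option autoImplicit false

namespace Pool.Agent.Helper45.BTN

open Finset Pool.Agent.Helper74.NW Pool.Agent.Helper96.BT Pool.Agent.Helper99.BT
open Pool.Agent.Helper99.NK (times)

/-- Every `ε`-rare list has cut points and a side such that both sides leave all but `T` symbols unread. -/
theorem cover {C : Type} [Fintype C] [Nonempty C] {q w T d : ℕ} {ε : ℝ} (h0 : 0 < ε) (h1 : ε ≤ 1)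
    (hqN : q ≤ Fintype.card C) (hT : (Fintype.card C : ℝ) ≤ T + ε * Fintype.card C / (2 * 2 ^ w))
    (hq : (10 ^ 6 : ℝ) * 2 ^ w * (w + 1) * (d + 2) ^ 2 * 2 / ε ^ 2 ≤ q) (l : List C)
    (hl : l.length ≤ 2 ^ d) (hr : Rare ε w l) :
    ∃ (b : ℕ → ℕ) (A : Finset (Fin ((w + 1) * q + 1))), Monotone b ∧ b 0 = 0 ∧ b ((w + 1) * q + 1) = l.length ∧
      Fintype.card C ≤ (free (partb A b l)).card + T ∧ Fintype.card C ≤ (free (partb Aᶜ b l)).card + T := by
  classical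
  have hq0 : 0 < q := by
    have h2 : (0 : ℝ) < (10 ^ 6 : ℝ) * 2 ^ w * (w + 1) * (d + 2) ^ 2 * 2 / ε ^ 2 := by positivity
    exact_mod_cast h2.trans_le hq
  have hq2 : (10 ^ 6 : ℝ) * 2 ^ w * (w + 1) * (d + 1 / (1 / 2)) ^ 2 / (ε ^ 2 * (1 / 2)) ≤ q := by
    refine le_trans (le_of_eq ?_) hq
    field_simp
  obtain ⟨E, hE0, hE, hβ⟩ := Pool.Agent.Helper97.BT.beta_le (N := Fintype.card C) (q := q) (w := w) (d := d) h0 h1
    (θ := 1 / 2) (by norm_num) (by norm_num) hqN hq2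
  have h2 := Pool.Agent.Helper45.BT.one_list (q := q) (w := w) (T := T) (d := d) hq0 hE0 hE h0 hT l hl
  have h3 : (0 : ℝ) < Nat.card ((Fin q → C) × Finset (Fin ((w + 1) * q + 1))) := by
    rw [Nat.card_eq_fintype_card]
    exact_mod_cast Fintype.card_pos
  have h4 : ∃ p : (Fin q → C) × Finset (Fin ((w + 1) * q + 1)), GoodH p.1 w T (3 / 4 * ε * q) p.2 l := by
    by_contra hno
    push Not at hno
    have h5 : (Nat.card {p : (Fin q → C) × Finset (Fin ((w + 1) * q + 1)) //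
        (Rare ε w l ∧ ¬ GoodH p.1 w T (3 / 4 * ε * q) p.2 l) ∨
        (GoodH p.1 w T (3 / 4 * ε * q) p.2 l ∧ ¬ Rare (ε / 2) w l)}) =
        Nat.card ((Fin q → C) × Finset (Fin ((w + 1) * q + 1))) :=
      Nat.card_congr (Equiv.subtypeUnivEquiv fun p => Or.inl ⟨hr, hno p⟩)
    rw [h5] at h2
    have h6 := h2.trans (mul_le_mul_of_nonneg_right hβ h3.le)
    linarith
  obtain ⟨⟨H, A⟩, -, hg1, hg2⟩ := h4
  obtain ⟨hadm, hJ, -⟩ := Pool.Agent.Helper27.BT.adm_cutp (H := H) (w := w) (J := (w + 1) * q + 1) (Nat.lt_succ_self _) l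
  exact ⟨cutp H w l, A, hadm.mono, hadm.b0, hJ, hg1, hg2⟩

end Pool.Agent.Helper45.BTN
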